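import Pool.Agent.Y262.NU.Stm

/-!
# Project NU: upper bounds for the derivative on the eigenvectors are closed
-/

set_option autoImplicit false

open Set Filter Topology

noncomputable section

namespace Pool.Agent.Y455.NU

open Pool.Agent.Y262.QE Pool.Agent.Y262.NU

section

variable {H : Type} [NormedAddCommGroup H] [InnerProductSpace ℝ H]

/-- the eigenvalue of an eigenvector belongs to the spectrum -/
theorem eig_ex {a b : H →L[ℝ] H →L[ℝ] ℝ} (hf : Fm a b) {e : ℕ → H} {E : ℕ → ℝ}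
    (he : Eg a b e E) {u : H} {lam : ℝ} (hu : b u u = 1) (hlam : ∀ w, a u w = lam * b u w) :
    ∃ i, E i = lam := by
  by_contra hcon
  push Not at hcon
  have h1 : ∀ i, b u (e i) = 0 := by
    intro i
    have h2 := hlam (e i)
    rw [hf.sa, he.eig i u, hf.sb (e i) u] at h2
    have h3 : (E i - lam) * b u (e i) = 0 := by
      rw [sub_mul, h2, sub_self]
    exact (mul_eq_zero.1 h3).resolve_left (sub_ne_zero.2 (hcon i))
  have h2 := he.sum u
  simp only [h1] at h2
  have h3 : HasSum (fun _ : ℕ => (0 : ℝ) ^ 2) 0 := by simp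
  have h4 := h2.unique h3
  linarith

end

/-- the limit of the inequalities -/
theorem lim_le {κ m C : ℝ} (hm : 0 ≤ m) (hC : 0 ≤ C)
    (h : ∀ᶠ t in 𝓝[>] (0 : ℝ), 1 + t * κ - C * t ^ 2 ≤ Real.exp (m * t)) : κ ≤ m := by
  by_contra hcon
  push Not at hcon
  have hd : 0 < (κ - m) / (C + m ^ 2 + 1) := div_pos (by linarith) (by positivity)
  have hd2 : (0 : ℝ) < 1 / (m + 1) := by positivity
  have g1 : ∀ᶠ t in 𝓝[>] (0 : ℝ), t ∈ Ioo 0 ((κ - m) / (C + m ^ 2 + 1)) := Ioo_mem_nhdsGT hd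
  have g2 : ∀ᶠ t in 𝓝[>] (0 : ℝ), t ∈ Ioo 0 (1 / (m + 1)) := Ioo_mem_nhdsGT hd2
  obtain ⟨t, h1, ⟨h2, h3⟩, ⟨-, h4⟩⟩ := (h.and (g1.and g2)).exists
  rw [lt_div_iff₀ (by positivity)] at h3 h4
  have h5 : |m * t| ≤ 1 := by
    rw [abs_of_nonneg (mul_nonneg hm h2.le)]
    nlinarith
  have h6 := (abs_le.1 (Real.abs_exp_sub_one_sub_id_le h5)).2
  have h7 : t * (κ - m) ≤ t * ((C + m ^ 2) * t) := by nlinarith
  have h8 := le_of_mul_le_mul_left h7 h2
  nlinarith

/-- the normalized case -/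
theorem abs2n (hSp : StSp) (hMM : StMM) (hMon : StMon) (hBot : StBot) (hVar2 : StVar2)
    (H : Type) [NormedAddCommGroup H] [InnerProductSpace ℝ H] [CompleteSpace H]
    (a : H →L[ℝ] H →L[ℝ] ℝ) (b k : ℝ → ℝ → H →L[ℝ] H →L[ℝ] ℝ) (K : ℝ) (hF : Fly2 a b k K)
    (m lo ε : ℝ) (hm : 0 ≤ m) (hmK : m ≤ K) (hlo : 0 ≤ lo) (hε : 0 < ε)
    (hyp : ∀ t ∈ Ioo 0 ε, ∀ τ ∈ Ioo 0 ε, ∀ (lam : ℝ) (v : H), lo < lam →
      (∀ w, a v w = lam * b t τ v w) → k t τ v v ≤ m * b t τ v v)
    (lam : ℝ) (u : H) (hlam : lo < lam) (hu : ∀ w, a u w = lam * b 0 0 u w)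
    (hu1 : b 0 0 u u = 1) : k 0 0 u u ≤ m := by
  have hK := hF.one
  have hfm : ∀ t τ, Fm a (b t τ) := fun t τ => (hF.fly τ).fm t
  obtain ⟨e, E, he⟩ := hSp H a (b 0 0) (hfm 0 0)
  have hE : ∀ j, Ev a (b 0 0) j = E j := hMM H a (b 0 0) (hfm 0 0) e E he
  have hex := eig_ex (hfm 0 0) he hu1 hu
  classical
  set j := Nat.find hex with hj
  have hEj : E j = lam := Nat.find_spec hex
  have hlt : ∀ i, i < j → E i < E j := by
    intro i hi
    refine lt_of_le_of_ne (he.mono hi.le) fun h => ?_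
    exact Nat.find_min hex hi (h.trans hEj)
  have hlam0 : 0 < lam := lt_of_le_of_lt hlo hlam
  -- a bound for the smaller eigenvalues
  obtain ⟨l2, hl0, hl1, hl2⟩ : ∃ l2 : ℝ, 0 ≤ l2 ∧ l2 < lam ∧ ∀ i, i < j → E i ≤ l2 := by
    rcases Nat.eq_zero_or_pos j with h | h
    · exact ⟨0, le_rfl, hlam0, fun i hi => by omega⟩
    · refine ⟨max (E (j - 1)) 0, le_max_right _ _, max_lt ?_ hlam0, fun i hi => ?_⟩
      · rw [← hEj]
        exact hlt _ (by omega)
      · exact (he.mono (by omega)).trans (le_max_left _ _)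
  -- the forms
  have hk0 : ∀ t τ v, 0 ≤ k t τ v v := fun t τ v => ((hF.fly τ).kb t v).1
  have hup : ∀ (s t τ : ℝ) (v : H), s ≤ t → b s τ v v ≤ b t τ v v := by
    intro s t τ v hst
    have h1 := (hF.fly τ).up s (t - s) v (by linarith)
    have h2 := mul_nonneg (sub_nonneg.2 hst) (hk0 s τ v)
    simp only [add_sub_cancel] at h1
    linarith
  have hub : ∀ (s t τ : ℝ) (v : H), s ≤ t → b t τ v v ≤ Real.exp (K * (t - s)) * b s τ v v := by
    intro s t τ v hst
    have h1 := (hF.fly τ).ub s (t - s) v (by linarith)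
    simp only [add_sub_cancel] at h1
    exact h1
  -- comparison of the eigenvalues
  have hnn : ∀ t τ, 0 ≤ Ev a (b t τ) j := fun t τ =>
    (hMon H a (b t τ) (b t τ) (hfm t τ) (hfm t τ) 1 one_pos (fun v => by rw [one_mul]) j).1
  have hlow : ∀ t τ : ℝ, 0 ≤ t → 0 ≤ τ → lam ≤ Real.exp (K * (t + τ)) * Ev a (b t τ) j := by
    intro t τ ht hτ
    rw [← hEj, ← hE j]
    refine (hMon H a (b t τ) (b 0 0) (hfm t τ) (hfm 0 0) _ (Real.exp_pos _) (fun v => ?_) j).2
    have h1 := (hF.tau t τ v hτ).2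
    have h2 := hub 0 t 0 v ht
    rw [sub_zero] at h2
    calc b t τ v v ≤ Real.exp (K * τ) * b t 0 v v := h1
      _ ≤ Real.exp (K * τ) * (Real.exp (K * t) * b 0 0 v v) :=
          mul_le_mul_of_nonneg_left h2 (Real.exp_pos _).le
      _ = Real.exp (K * (t + τ)) * b 0 0 v v := by
          rw [← mul_assoc, ← Real.exp_add]
          congr 2
          ring
  -- the constant
  obtain ⟨C, hC0, hC⟩ : ∃ C : ℝ, 0 < C ∧ l2 < lam * (1 - K ^ 2 / C) := by
    refine ⟨2 * lam * K ^ 2 / (lam - l2), by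
      have : 0 < lam - l2 := by linarith
      positivity, ?_⟩
    have h1 : 0 < lam - l2 := by linarith
    have h2 : K ^ 2 / (2 * lam * K ^ 2 / (lam - l2)) = (lam - l2) / (2 * lam) := by
      have : K ≠ 0 := by linarith
      field_simp
    rw [h2, mul_sub, mul_one]
    have h3 : lam * ((lam - l2) / (2 * lam)) = (lam - l2) / 2 := by
      field_simp
    rw [h3]
    linarith
  refine lim_le hm hC0.le ?_
  have c1 : ∀ᶠ t in 𝓝[>] (0 : ℝ), t ∈ Ioo 0 (min ε 1) := Ioo_mem_nhdsGT (lt_min hε one_pos)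
  have c2 : ∀ᶠ t in 𝓝[>] (0 : ℝ), Real.exp (K * t) * lo < lam := by
    have h1 : Tendsto (fun t : ℝ => Real.exp (K * t) * lo) (𝓝 0) (𝓝 (Real.exp (K * 0) * lo)) :=
      (by fun_prop : Continuous fun t : ℝ => Real.exp (K * t) * lo).tendsto 0
    rw [mul_zero, Real.exp_zero, one_mul] at h1
    exact (h1.mono_left nhdsWithin_le_nhds).eventually_lt_const hlam
  have c3 : ∀ᶠ t in 𝓝[>] (0 : ℝ), C * t ^ 2 < 1 := by
    have h1 : Tendsto (fun t : ℝ => C * t ^ 2) (𝓝 0) (𝓝 (C * 0 ^ 2)) :=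
      (by fun_prop : Continuous fun t : ℝ => C * t ^ 2).tendsto 0
    rw [zero_pow two_ne_zero, mul_zero] at h1
    exact (h1.mono_left nhdsWithin_le_nhds).eventually_lt_const one_pos
  have c4 : ∀ᶠ t in 𝓝[>] (0 : ℝ), l2 * Real.exp (K * t) < lam * (1 - K ^ 2 / C) := by
    have h1 : Tendsto (fun t : ℝ => l2 * Real.exp (K * t)) (𝓝 0) (𝓝 (l2 * Real.exp (K * 0))) :=
      (by fun_prop : Continuous fun t : ℝ => l2 * Real.exp (K * t)).tendsto 0
    rw [mul_zero, Real.exp_zero, mul_one] at h1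
    exact (h1.mono_left nhdsWithin_le_nhds).eventually_lt_const hC
  filter_upwards [c1, c2, c3, c4] with t ht1 ht2 ht3 ht4
  have ht0 : 0 < t := ht1.1
  have htε : t < ε := lt_of_lt_of_le ht1.2 (min_le_left _ _)
  have ht1' : t ≤ 1 := (lt_of_lt_of_le ht1.2 (min_le_right _ _)).le
  -- the lower bound for the eigenvalue
  have hμ : lam ≤ Real.exp (m * t) * Ev a (b t 0) j := by
    have hτ : ∀ᶠ τ in 𝓝[>] (0 : ℝ), lam ≤ Real.exp (K * τ) * (Real.exp (m * t) * Ev a (b t 0) j) := by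
      have d1 : ∀ᶠ τ in 𝓝[>] (0 : ℝ), τ ∈ Ioo 0 ε := Ioo_mem_nhdsGT hε
      have d2 : ∀ᶠ τ in 𝓝[>] (0 : ℝ), Real.exp (K * (t + τ)) * lo < lam := by
        have h1 : Tendsto (fun τ : ℝ => Real.exp (K * (t + τ)) * lo) (𝓝 0)
            (𝓝 (Real.exp (K * (t + 0)) * lo)) :=
          (by fun_prop : Continuous fun τ : ℝ => Real.exp (K * (t + τ)) * lo).tendsto 0
        rw [add_zero] at h1
        exact (h1.mono_left nhdsWithin_le_nhds).eventually_lt_const ht2
      filter_upwards [d1, d2] with τ hτ1 hτ2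
      have hτ0 : 0 ≤ τ := hτ1.1.le
      have h1 := hlow 0 τ le_rfl hτ0
      rw [zero_add] at h1
      have h2 : Ev a (b 0 τ) j ≤ Real.exp (m * (t - 0)) * Ev a (b t τ) j := by
        refine hVar2 H a (fun s => b s τ) (fun s => k s τ) K (hF.fly τ) 0 t m j ht0.le hmK ?_
        intro s hs v hv
        refine hyp s ⟨hs.1, hs.2.trans htε⟩ τ hτ1 (Ev a (b s τ) j) v ?_ hv
        have h3 := hlow s τ hs.1.le hτ0
        have h4 : Real.exp (K * (s + τ)) * lo < Real.exp (K * (s + τ)) * Ev a (b s τ) j := by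
          refine lt_of_lt_of_le (lt_of_le_of_lt ?_ hτ2) h3
          refine mul_le_mul_of_nonneg_right (Real.exp_le_exp.2 ?_) hlo
          have := hs.2
          nlinarith
        exact lt_of_mul_lt_mul_left h4 (Real.exp_pos _).le
      rw [sub_zero] at h2
      have h3 : Ev a (b t τ) j ≤ Ev a (b t 0) j := by
        have h4 := (hMon H a (b t 0) (b t τ) (hfm t 0) (hfm t τ) 1 one_pos (fun v => by
          rw [one_mul]
          exact (hF.tau t τ v hτ0).1) j).2
        rwa [one_mul] at h4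
      calc lam ≤ Real.exp (K * τ) * Ev a (b 0 τ) j := h1
        _ ≤ Real.exp (K * τ) * (Real.exp (m * t) * Ev a (b t τ) j) :=
            mul_le_mul_of_nonneg_left h2 (Real.exp_pos _).le
        _ ≤ Real.exp (K * τ) * (Real.exp (m * t) * Ev a (b t 0) j) :=
            mul_le_mul_of_nonneg_left (mul_le_mul_of_nonneg_left h3 (Real.exp_pos _).le)
              (Real.exp_pos _).le
    have h1 : Tendsto (fun τ : ℝ => Real.exp (K * τ) * (Real.exp (m * t) * Ev a (b t 0) j))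
        (𝓝[>] 0) (𝓝 (Real.exp (K * 0) * (Real.exp (m * t) * Ev a (b t 0) j))) :=
      ((by fun_prop : Continuous fun τ : ℝ =>
        Real.exp (K * τ) * (Real.exp (m * t) * Ev a (b t 0) j)).tendsto 0).mono_left
          nhdsWithin_le_nhds
    rw [mul_zero, Real.exp_zero, one_mul] at h1
    exact ge_of_tendsto h1 hτ
  -- the perturbation of the eigenvector
  have hθ : 0 < C * t ^ 2 := by positivity
  have hη : 0 < K * t := by
    have : 0 < K := by linarith
    positivity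
  have hbu : b t 0 u u ≤ Real.exp (K * t) := by
    have h1 := hub 0 t 0 u ht0.le
    rwa [sub_zero, hu1, mul_one] at h1
  have hbl : 1 + t * k 0 0 u u ≤ b t 0 u u := by
    have h1 := (hF.fly 0).up 0 t u ht0.le
    rw [zero_add, hu1] at h1
    exact h1
  have hκ := hk0 0 0 u
  have hbot := hBot H a (b 0 0) (b t 0) (hfm 0 0) (hfm t 0) e E he u j (K * t) (C * t ^ 2) hu1
    (by rw [hEj]; exact hu) (by rw [hEj]; exact hlam0) hlt hη hθ ht3 (fun v => hup 0 t 0 v ht0.le)
    (fun v hv => by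
      have h1 := hF.off t u v ht0.le ht1' hv
      rwa [hu1, one_mul] at h1) (fun i hi => by
      rw [hEj]
      have h1 : (K * t) ^ 2 / (C * t ^ 2) = K ^ 2 / C := by
        field_simp
      rw [h1]
      have h2 : 0 ≤ b t 0 u u := (hfm t 0).nb u
      calc E i * b t 0 u u ≤ l2 * b t 0 u u := mul_le_mul_of_nonneg_right (hl2 i hi) h2
        _ ≤ l2 * Real.exp (K * t) := mul_le_mul_of_nonneg_left hbu hl0
        _ ≤ lam * (1 - K ^ 2 / C) := ht4.le)
  rw [hEj] at hbot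
  have hμ0 := hnn t 0
  have h1 : 0 ≤ 1 + t * k 0 0 u u - C * t ^ 2 := by
    have := mul_nonneg ht0.le hκ
    linarith
  have h2 : Ev a (b t 0) j * (1 + t * k 0 0 u u - C * t ^ 2) ≤ lam :=
    (mul_le_mul_of_nonneg_left (by linarith) hμ0).trans hbot
  have h3 : lam * (1 + t * k 0 0 u u - C * t ^ 2) ≤ Real.exp (m * t) * lam := by
    calc lam * (1 + t * k 0 0 u u - C * t ^ 2) ≤
        Real.exp (m * t) * Ev a (b t 0) j * (1 + t * k 0 0 u u - C * t ^ 2) :=
          mul_le_mul_of_nonneg_right hμ h1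
      _ = Real.exp (m * t) * (Ev a (b t 0) j * (1 + t * k 0 0 u u - C * t ^ 2)) := by ring
      _ ≤ Real.exp (m * t) * lam := mul_le_mul_of_nonneg_left h2 (Real.exp_pos _).le
  rw [mul_comm (Real.exp (m * t)) lam] at h3
  exact le_of_mul_le_mul_left h3 hlam0

/-- **upper bounds for `k` on the eigenvectors are closed** -/
theorem abs2 (hSp : StSp) (hMM : StMM) (hMon : StMon) (hBot : StBot) (hVar2 : StVar2) :
    StAbs2 := by
  intro H _ _ _ a b k K hF m lo ε hm hmK hlo hε hyp lam u hlam hu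
  have h0 := ((hF.fly 0).fm 0).nb u
  rcases h0.eq_or_lt with h | h
  · have h1 := ((hF.fly 0).kb 0 u).2
    rw [← h, mul_zero] at h1 ⊢
    exact h1
  · set c : ℝ := (Real.sqrt (b 0 0 u u))⁻¹ with hc
    have hc2 : c * c * b 0 0 u u = 1 := by
      rw [hc, ← mul_inv, Real.mul_self_sqrt h.le, inv_mul_cancel₀ h.ne']
    have e1 : ∀ f : H →L[ℝ] H →L[ℝ] ℝ, f (c • u) (c • u) = c * c * f u u := by
      intro f
      simp only [map_smul, smul_apply, smul_eq_mul]
      ring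
    have h2 := abs2n hSp hMM hMon hBot hVar2 H a b k K hF m lo ε hm hmK hlo hε hyp lam (c • u)
      hlam (fun w => by
        simp only [map_smul, smul_apply, smul_eq_mul]
        rw [hu w]
        ring) (by rw [e1, hc2])
    rw [e1] at h2
    have h3 : 0 < c * c := by
      have : 0 < c := by
        rw [hc]
        exact inv_pos.2 (Real.sqrt_pos.2 h)
      positivity
    have h4 : c * c * k 0 0 u u ≤ c * c * (m * b 0 0 u u) := by
      calc c * c * k 0 0 u u ≤ m := h2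
        _ = m * (c * c * b 0 0 u u) := by rw [hc2, mul_one]
        _ = c * c * (m * b 0 0 u u) := by ring
    exact le_of_mul_le_mul_left h4 h3

end Pool.Agent.Y455.NU
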